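import Pool.Agent.Helper66.PV.Defs
import Pool.Agent.Helper83.MT.SumPrime
import Pool.Agent.Helper46.MT.Expand
import Pool.Agent.Helper74.MT.BVError

/-!
# Project PV, module N: the sieve sum over the `n` such that `n + h m` is prime

Adapted from `Pool/Agent/Helper83/MT/SumPrime.lean`: only `v + h m` has to be coprime to `W`.
-/

set_option autoImplicit false

open Finset Filter Topology
open scoped ArithmeticFunction.vonMangoldt

namespace Pool.Agent.Helper47.PV

open Pool.Agent.Helper1.MT hiding PS_prime PS_le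
open Pool.Agent.Helper18.BV (wt IsWt)
open Pool.Agent.Helper66.PV (SetN)
open Pool.Agent.Helper83.MT (PS_prime PS_not_dvd PS_le coprime_step totient_mul_prod prod_pos
  prod_le_of_T_le prod_le_prod_of_subset prod_union_le toNat toNat_injective toNat_card toNat_prod
  toNat_mem sum_pow_card_le sig le_of_inv_prod exists_of_lam_ne_zero supp_subset_of_le abs_lam_le
  mem_supp supp_join sum_pairs_le Qf_nonneg sum_prm exists_max_class eventually_small
  nu err err_mod err_nonneg nu_range mem_NS sum_nu class_bound)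

variable {R W : ℕ}

theorem PS_ge {κ : Type} {D0 : ℕ} {h : κ → ℕ} (hS : SetN D0 h W) (p : PS R W) :
    D0 ≤ (p : ℕ) := by
  by_contra hlt
  exact PS_not_dvd p (hS.small p (PS_prime p) (not_le.1 hlt))

theorem crt {κ : Type} {D0 : ℕ} {h : κ → ℕ} {v : ℕ} (hS : SetN D0 h W) (m : κ)
    (hcop : Nat.Coprime (v + h m) W) (i : PS R W → κ) (S : Finset (PS R W)) (hi : ∀ p ∈ S, i p ≠ m) :
    ∃ a : ℕ, Nat.Coprime a (W * ∏ p ∈ S, (p : ℕ)) ∧
      ∀ n : ℕ, (n ≡ v [MOD W] ∧ ∀ p ∈ S, (p : ℕ) ∣ n + h (i p)) ↔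
        n + h m ≡ a [MOD W * ∏ p ∈ S, (p : ℕ)] := by
  classical
  induction S using Finset.induction_on with
  | empty =>
    refine ⟨v + h m, ?_, ?_⟩
    · rw [Finset.prod_empty, mul_one]
      exact hcop
    · intro n
      rw [Finset.prod_empty, mul_one]
      constructor
      · rintro ⟨h1, -⟩
        exact h1.add_right _
      · intro h1
        exact ⟨Nat.ModEq.add_right_cancel' _ h1, by simp⟩
  | insert p S hp ih =>
    obtain ⟨a, ha1, ha2⟩ := ih (fun q hq => hi q (Finset.mem_insert_of_mem hq))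
    have hpp := PS_prime p
    have hcp := coprime_step S p hp
    set b : ℕ := h m + (p - 1) * h (i p) with hb
    obtain ⟨a', ha'1, ha'2⟩ := Nat.chineseRemainder hcp a b
    have h1 : W * ∏ q ∈ insert p S, (q : ℕ) = (W * ∏ q ∈ S, (q : ℕ)) * p := by
      rw [Finset.prod_insert hp]; ring
    have hpsplit : ((p : ℕ) - 1) + 1 = (p : ℕ) := Nat.sub_add_cancel hpp.one_le
    refine ⟨a', ?_, ?_⟩
    · rw [h1, Nat.coprime_mul_iff_right]
      constructor
      · have := ha'1.gcd_eq
        unfold Nat.Coprime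
        rw [this]
        exact ha1
      · rw [Nat.coprime_comm, hpp.coprime_iff_not_dvd]
        intro hdvd
        have h2 : (p : ℕ) ∣ b := (ha'2.dvd_iff (dvd_refl _)).1 hdvd
        have h3 : ((p : ℕ) : ℤ) ∣ (h m : ℤ) - h (i p) := by
          have h4 : ((p : ℕ) : ℤ) ∣ (b : ℤ) := by exact_mod_cast h2
          have h5 : (h m : ℤ) - h (i p) = b - (p : ℕ) * h (i p) := by
            rw [hb]
            push_cast [Nat.cast_sub hpp.one_le]
            ring
          rw [h5]
          exact dvd_sub h4 (dvd_mul_right _ _)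
        exact PS_not_dvd p (hS.diff m (i p) (Ne.symm (hi p (Finset.mem_insert_self _ _))) p hpp h3)
    · intro n
      rw [h1, ← Nat.modEq_and_modEq_iff_modEq_mul hcp]
      have h2 : (p : ℕ) ∣ n + h (i p) ↔ n + h m ≡ a' [MOD p] := by
        constructor
        · intro h3
          refine Nat.ModEq.trans ?_ ha'2.symm
          rw [hb, add_comm n]
          apply Nat.ModEq.add_left
          apply Nat.ModEq.add_right_cancel' (h (i p))
          have h4 : ((p : ℕ) - 1) * h (i p) + h (i p) = (p : ℕ) * h (i p) := by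
            calc ((p : ℕ) - 1) * h (i p) + h (i p) = (((p : ℕ) - 1) + 1) * h (i p) := by ring
              _ = _ := by rw [hpsplit]
          rw [h4]
          exact ((Nat.modEq_zero_iff_dvd.2 h3)).trans
            (Nat.modEq_zero_iff_dvd.2 (dvd_mul_right _ _)).symm
        · intro h3
          have h4 := h3.trans ha'2
          rw [hb, add_comm n] at h4
          have h5 := (Nat.ModEq.add_left_cancel' _ h4).add_right (h (i p))
          have h6 : ((p : ℕ) - 1) * h (i p) + h (i p) = (p : ℕ) * h (i p) := by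
            calc ((p : ℕ) - 1) * h (i p) + h (i p) = (((p : ℕ) - 1) + 1) * h (i p) := by ring
              _ = _ := by rw [hpsplit]
          rw [h6] at h5
          exact Nat.modEq_zero_iff_dvd.1 (h5.trans (Nat.modEq_zero_iff_dvd.2 (dvd_mul_right _ _)))
      constructor
      · rintro ⟨h3, h4⟩
        refine ⟨?_, ?_⟩
        · exact ((ha2 n).1 ⟨h3, fun q hq => h4 q (Finset.mem_insert_of_mem hq)⟩).trans ha'1.symm
        · exact h2.1 (h4 p (Finset.mem_insert_self _ _))
      · rintro ⟨h3, h4⟩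
        have h5 := (ha2 n).2 (h3.trans ha'1)
        refine ⟨h5.1, ?_⟩
        intro q hq
        rcases Finset.mem_insert.1 hq with rfl | hq
        · exact h2.2 h4
        · exact h5.2 q hq

theorem Dv_iff {κ : Type} {D0 : ℕ} {h : κ → ℕ} (hS : SetN D0 h W)
    (c : PS R W → Option κ) (n : ℕ) : Dv h c n ↔ Le c (sig h n) := by
  classical
  have huniq : ∀ (p : PS R W) (i j : κ), (p : ℕ) ∣ n + h i → (p : ℕ) ∣ n + h j → i = j := by
    intro p i j hi hj
    by_contra hne
    apply PS_not_dvd p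
    apply hS.diff i j hne p (PS_prime p)
    have h1 : ((p : ℕ) : ℤ) ∣ ((n + h i : ℕ) : ℤ) := by exact_mod_cast hi
    have h2 : ((p : ℕ) : ℤ) ∣ ((n + h j : ℕ) : ℤ) := by exact_mod_cast hj
    have h3 : (h i : ℤ) - h j = ((n + h i : ℕ) : ℤ) - ((n + h j : ℕ) : ℤ) := by
      push_cast; ring
    rw [h3]
    exact dvd_sub h1 h2
  constructor
  · intro hD p
    cases hc : c p with
    | none => left; rfl
    | some i =>
      right
      have h1 := hD p i hc
      have h2 : ∃ i, (p : ℕ) ∣ n + h i := ⟨i, h1⟩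
      unfold sig
      rw [dif_pos h2, huniq p i _ h1 h2.choose_spec]
  · intro hL p i hc
    rcases hL p with h1 | h1
    · rw [hc] at h1; cases h1
    · rw [hc] at h1
      unfold sig at h1
      split_ifs at h1 with h2
      rw [Option.some.injEq] at h1
      rw [h1]
      exact h2.choose_spec

theorem sw_eq {κ : Type} [Fintype κ] [DecidableEq κ] {D0 : ℕ} {h : κ → ℕ} {R W : ℕ}
    (hS : SetN D0 h W) (f : (PS R W → Option κ) → ℝ) (n : ℕ) :
    sw h f n = (∑ c ∈ univ.filter (fun c : PS R W → Option κ => Le c (sig h n)), f c) ^ 2 := by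
  classical
  unfold sw
  congr 1
  apply Finset.sum_congr _ (fun _ _ => rfl)
  ext c
  simp only [Finset.mem_filter, Dv_iff hS]

/-- The comparison for one colouring. -/
theorem one_colouring {κ : Type} [Fintype κ] [DecidableEq κ] {D0 : ℕ} {h : κ → ℕ} {R W v : ℕ}
    (hS : SetN D0 h W) (m : κ) (hcop : Nat.Coprime (v + h m) W) {g : ℝ → ℝ} (hg : IsWt g) (hg1 : ∀ v, g v ≤ 1)
    (hg0 : ∀ v, v ≤ 5 / 8 → g v = 0) {x : ℝ} (hx : 3 ≤ x)
    (hH : x ^ (1 / 2 : ℝ) + h m + 1 ≤ x ^ (5 / 8 : ℝ)) (hR : (R : ℝ) ≤ x ^ (5 / 8 : ℝ))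
    {δ : ℝ} (hδ0 : 0 ≤ δ)
    (hδ : ∀ T : Finset ℕ, (∀ n ∈ T, ¬ n.Prime ∧ x ^ (1 / 2 : ℝ) < n ∧ (n : ℝ) ≤ x) →
      ∑ n ∈ T, Λ n / n ≤ δ) {cm : ℕ → ℕ}
    (hmax : ∀ d a, Nat.Coprime a d → err g x d a ≤ err g x d (cm d))
    (U : PS R W → Option κ) :
    |∑ n ∈ (NS x W v).filter (fun n => Le U (sig h n)), nu g x (h m) n -
      ((∑ n ∈ Icc 1 ⌊x⌋₊, Λ n * wt g x n) / (W.totient : ℝ)) *
        ∏ p ∈ supp U, prm m (wp' R W p) (U p)| ≤
      err g x (W * ∏ p ∈ supp U, (p : ℕ)) (cm (W * ∏ p ∈ supp U, (p : ℕ))) + δ := by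
  classical
  have hx1 : 1 < x := by linarith
  by_cases hm : ∃ p, U p = some m
  · obtain ⟨p, hp⟩ := hm
    have h1 : ∏ p ∈ supp U, prm m (wp' R W p) (U p) = 0 := by
      apply Finset.prod_eq_zero (i := p)
      · rw [mem_supp, hp]; simp
      · rw [hp]; simp [prm]
    have h2 : ∑ n ∈ (NS x W v).filter (fun n => Le U (sig h n)), nu g x (h m) n = 0 := by
      apply Finset.sum_eq_zero
      intro n hn
      by_contra hne
      obtain ⟨hq, h3, _⟩ := nu_range hg hg0 hx1 hne
      have h4 : Dv h U n := (Dv_iff hS U n).2 (Finset.mem_filter.1 hn).2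
      have h5 := h4 p m hp
      have h6 := (Nat.prime_dvd_prime_iff_eq (PS_prime p) hq).1 h5
      have h7 : ((p : ℕ) : ℝ) ≤ R := by exact_mod_cast PS_le p
      rw [← h6] at h3
      linarith
    rw [h1, h2, mul_zero, sub_zero, abs_zero]
    exact add_nonneg (err_nonneg _ _ _ _) hδ0
  · push Not at hm
    set i : PS R W → κ := fun p => (U p).getD m with hi
    have hUi : ∀ p ∈ supp U, U p = some (i p) := by
      intro p hp
      rw [mem_supp] at hp
      simp only [hi]
      cases hU : U p with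
      | none => exact absurd hU hp
      | some j => rfl
    have hine : ∀ p ∈ supp U, i p ≠ m := by
      intro p hp heq
      apply hm p
      rw [hUi p hp, heq]
    obtain ⟨a, ha1, ha2⟩ := crt hS m hcop i (supp U) hine
    set q := W * ∏ p ∈ supp U, (p : ℕ) with hq
    have hQ : ∀ n, (n ≡ v [MOD W] ∧ Le U (sig h n)) ↔ n + h m ≡ a [MOD q] := by
      intro n
      rw [← ha2 n, ← Dv_iff hS U n]
      apply and_congr_right
      intro _
      constructor
      · intro hD p hp
        exact hD p (i p) (hUi p hp)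
      · intro hD p j hj
        have hp : p ∈ supp U := by rw [mem_supp, hj]; simp
        have h1 := hUi p hp
        rw [hj, Option.some.injEq] at h1
        rw [h1]
        exact hD p hp
    rw [sum_nu hg hg0 hx1 hH _ hQ]
    have h3 : ((∑ n ∈ Icc 1 ⌊x⌋₊, Λ n * wt g x n) / (W.totient : ℝ)) *
        ∏ p ∈ supp U, prm m (wp' R W p) (U p) =
        (1 / (q.totient : ℝ)) * ∑ n ∈ Icc 1 ⌊x⌋₊, Λ n * wt g x n := by
      have h4 : ∏ p ∈ supp U, prm m (wp' R W p) (U p) =
          1 / ∏ p ∈ supp U, (((p : ℕ) : ℝ) - 1) := by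
        rw [one_div, ← Finset.prod_inv_distrib]
        apply Finset.prod_congr rfl
        intro p hp
        rw [hUi p hp]
        simp only [prm, if_neg (hine p hp), wp', one_div]
      rw [h4, hq, totient_mul_prod, one_div, one_div, mul_inv, div_eq_mul_inv]
      ring
    rw [h3]
    refine (class_bound hg hg1 hx hδ q a).trans ?_
    have := hmax q a ha1
    linarith

theorem PS_ge_three_mul {κ : Type} [Fintype κ] {D0 : ℕ} {h : κ → ℕ} {R W : ℕ}
    (hS : SetN D0 h W) (hD0 : (Fintype.card κ + 2) ^ 10 ≤ D0) (p : PS R W) :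
    3 * Fintype.card κ ≤ (p : ℕ) := by
  refine le_trans ?_ (PS_ge hS p)
  refine le_trans ?_ hD0
  calc 3 * Fintype.card κ ≤ (Fintype.card κ + 2) ^ 2 := by nlinarith
    _ ≤ (Fintype.card κ + 2) ^ 10 := Nat.pow_le_pow_right (by omega) (by norm_num)

theorem prm_nonneg {κ : Type} [Fintype κ] [DecidableEq κ] {D0 : ℕ} {h : κ → ℕ} {R W : ℕ}
    (hS : SetN D0 h W) (hD0 : (Fintype.card κ + 2) ^ 10 ≤ D0) (m : κ) (p : PS R W)
    (a : Option κ) : 0 ≤ prm m (wp' R W p) a := by
  have h1 := PS_ge_three_mul hS hD0 p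
  have h2 := (PS_prime p).two_le
  have h3 : (1 : ℝ) ≤ ((p : ℕ) : ℝ) - 1 := by
    have : (2 : ℝ) ≤ ((p : ℕ) : ℝ) := by exact_mod_cast h2
    linarith
  have h4 : (0 : ℝ) ≤ wp' R W p := by
    unfold wp'
    positivity
  cases a with
  | none =>
    unfold prm wp'
    have h5 : ((Fintype.card κ : ℝ) - 1) * (1 / (((p : ℕ) : ℝ) - 1)) ≤ 1 := by
      rw [mul_one_div, div_le_one (by linarith)]
      have h6 : (3 * (Fintype.card κ : ℝ)) ≤ ((p : ℕ) : ℝ) := by exact_mod_cast h1
      have h7 : (0 : ℝ) ≤ (Fintype.card κ : ℝ) := Nat.cast_nonneg _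
      linarith
    linarith
  | some j =>
    show 0 ≤ if j = m then (0 : ℝ) else wp' R W p
    split_ifs
    · exact le_rfl
    · exact h4

/-- The total error. -/
theorem total_error {κ : Type} [Fintype κ] [DecidableEq κ] {D0 : ℕ} {h : κ → ℕ} {R W : ℕ}
    (hS : SetN D0 h W) (hD0 : (Fintype.card κ + 2) ^ 10 ≤ D0)
    {f : (PS R W → Option κ) → ℝ} {L : ℝ} (hL : ∀ c, |f c| ≤ L) {g : ℝ → ℝ} {x : ℝ}
    {cm : ℕ → ℕ} {δ β : ℝ} (hδ0 : 0 ≤ δ)
    (hβ : ∑ U ∈ (PS R W).powerset.filter (fun U => ∏ p ∈ U, p ≤ R ^ 2),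
      ((3 * Fintype.card κ : ℕ) : ℝ) ^ U.card *
        err g x (W * ∏ p ∈ U, p) (cm (W * ∏ p ∈ U, p)) ≤ β) :
    ∑ c : PS R W → Option κ, ∑ c' : PS R W → Option κ,
      (open Classical in if Compat c c' then |f c| * |f c'| *
        (if ∏ p ∈ supp (join c c'), (p : ℕ) ≤ R ^ 2 then
          err g x (W * ∏ p ∈ supp (join c c'), (p : ℕ))
            (cm (W * ∏ p ∈ supp (join c c'), (p : ℕ))) + δ else 0) else 0) ≤
      L ^ 2 * (β + (R : ℝ) ^ 4 * δ) := by
  classical
  set G : Finset (PS R W) → ℝ := fun S => if ∏ p ∈ S, (p : ℕ) ≤ R ^ 2 then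
    err g x (W * ∏ p ∈ S, (p : ℕ)) (cm (W * ∏ p ∈ S, (p : ℕ))) + δ else 0 with hG
  have hG0 : ∀ S, 0 ≤ G S := by
    intro S
    simp only [hG]
    split_ifs
    · exact add_nonneg (err_nonneg _ _ _ _) hδ0
    · exact le_rfl
  have hLn : 0 ≤ L := (abs_nonneg _).trans (hL (fun _ => none))
  have h1 : ∀ c c' : PS R W → Option κ, (if Compat c c' then |f c| * |f c'| *
        G (supp (join c c')) else 0) ≤
      L ^ 2 * (if Compat c c' then G (supp (join c c')) else 0) := by
    intro c c'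
    split_ifs
    · apply mul_le_mul_of_nonneg_right _ (hG0 _)
      rw [pow_two]
      exact mul_le_mul (hL c) (hL c') (abs_nonneg _) hLn
    · rw [mul_zero]
  have h2 := sum_pairs_le (ι := PS R W) (κ := κ) G hG0
  have h3 : ∑ S : Finset (PS R W), (3 * Fintype.card κ : ℝ) ^ S.card * G S ≤
      β + (R : ℝ) ^ 4 * δ := by
    have h4 : ∑ S : Finset (PS R W), (3 * Fintype.card κ : ℝ) ^ S.card * G S =
        ∑ S ∈ (univ : Finset (Finset (PS R W))).filter
          (fun S : Finset (PS R W) => ∏ p ∈ S, (p : ℕ) ≤ R ^ 2),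
          (((3 * Fintype.card κ : ℕ) : ℝ) ^ S.card *
            err g x (W * ∏ p ∈ S, (p : ℕ)) (cm (W * ∏ p ∈ S, (p : ℕ))) +
            ((3 * Fintype.card κ : ℕ) : ℝ) ^ S.card * δ) := by
      rw [Finset.sum_filter]
      apply Finset.sum_congr rfl
      intro S _
      simp only [hG]
      split_ifs
      · push_cast; ring
      · rw [mul_zero]
    rw [h4, Finset.sum_add_distrib]
    apply add_le_add
    · refine le_trans ?_ hβ
      have h5 : ∑ S ∈ (univ : Finset (Finset (PS R W))).filter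
          (fun S : Finset (PS R W) => ∏ p ∈ S, (p : ℕ) ≤ R ^ 2),
          ((3 * Fintype.card κ : ℕ) : ℝ) ^ S.card *
            err g x (W * ∏ p ∈ S, (p : ℕ)) (cm (W * ∏ p ∈ S, (p : ℕ))) =
          ∑ U ∈ ((univ : Finset (Finset (PS R W))).filter
          (fun S : Finset (PS R W) => ∏ p ∈ S, (p : ℕ) ≤ R ^ 2)).image toNat,
            ((3 * Fintype.card κ : ℕ) : ℝ) ^ U.card *
            err g x (W * ∏ p ∈ U, p) (cm (W * ∏ p ∈ U, p)) := by
        rw [Finset.sum_image (fun _ _ _ _ h => toNat_injective h)]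
        apply Finset.sum_congr rfl
        intro S _
        rw [toNat_card, toNat_prod]
      rw [h5]
      apply Finset.sum_le_sum_of_subset_of_nonneg
      · intro U hU
        obtain ⟨S, hS', rfl⟩ := Finset.mem_image.1 hU
        rw [Finset.mem_filter]
        refine ⟨toNat_mem S, ?_⟩
        rw [toNat_prod]
        exact (Finset.mem_filter.1 hS').2
      · intro U _ _
        exact mul_nonneg (by positivity) (err_nonneg _ _ _ _)
    · rw [← Finset.sum_mul]
      apply mul_le_mul_of_nonneg_right _ hδ0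
      have h6 := sum_pow_card_le (R := R) (W := W) (3 * Fintype.card κ) (R ^ 2)
        (PS_ge_three_mul hS hD0)
      calc _ ≤ ((R ^ 2 : ℕ) : ℝ) ^ 2 := h6
        _ = (R : ℝ) ^ 4 := by push_cast; ring
  calc _ ≤ ∑ c : PS R W → Option κ, ∑ c' : PS R W → Option κ,
        L ^ 2 * (if Compat c c' then G (supp (join c c')) else 0) :=
        Finset.sum_le_sum fun c _ => Finset.sum_le_sum fun c' _ => h1 c c'
    _ = L ^ 2 * ∑ c : PS R W → Option κ, ∑ c' : PS R W → Option κ,
        (if Compat c c' then G (supp (join c c')) else 0) := by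
        simp_rw [← Finset.mul_sum]
    _ ≤ L ^ 2 * (β + (R : ℝ) ^ 4 * δ) :=
        mul_le_mul_of_nonneg_left (h2.trans h3) (by positivity)

/-- PV-N: the sieve sum over the `n` such that `n + h m` is prime. -/
theorem sumPrimeN : Pool.Agent.Helper66.PV.SumPrimeN := by
  have hE : Expand := Pool.Agent.Helper46.MT.expand
  have hB : BVError := Pool.Agent.Helper74.MT.bvError
  obtain ⟨g, hg, hgne, hg1, hg0'⟩ := Pool.Agent.Helper18.BV.exists_wt
    (show (0 : ℝ) < 3 / 8 by norm_num) (by norm_num)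
  have hg0 : ∀ v, v ≤ 5 / 8 → g v = 0 := fun v hv => hg0' v (by linarith)
  obtain ⟨c, C, XM, hc, hC, hXM, hmass⟩ := Pool.Agent.Helper44.BV.mass g hg hgne
  refine ⟨c, hc, ?_⟩
  intro κ _ _ D0 h W v hD0 hS m hcop
  obtain ⟨C1, hC1, hprod⟩ := Pool.Agent.Helper83.MT.prod_bound
  obtain ⟨C2, hC2, hnp⟩ := Pool.Agent.Helper83.MT.nonprime_bound
  obtain ⟨XB, hXB, hBV⟩ := hB g hg (3 * Fintype.card κ) W hS.W_pos
    ((2 * Fintype.card κ + 1 : ℕ) : ℝ) (by positivity)
  obtain ⟨X1, hX1⟩ := eventually_atTop.1 (eventually_small (Fintype.card κ) hC1 hC2)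
  refine ⟨max (max XM XB) (max X1 (max (2 ^ 81) (((h m : ℝ) + 2) ^ 8))),
    le_max_of_le_left (le_max_of_le_left hXM), ?_⟩
  intro x hx
  have hxM : XM ≤ x := ((le_max_left _ _).trans (le_max_left _ _)).trans hx
  have hxB : XB ≤ x := ((le_max_right _ _).trans (le_max_left _ _)).trans hx
  have hx1 : X1 ≤ x := ((le_max_left _ _).trans (le_max_right _ _)).trans hx
  have hx2 : (2 : ℝ) ^ 81 ≤ x := ((le_max_left _ _).trans ((le_max_right _ _).trans
    (le_max_right _ _))).trans hx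
  have hxh : ((h m : ℝ) + 2) ^ 8 ≤ x := ((le_max_right _ _).trans ((le_max_right _ _).trans
    (le_max_right _ _))).trans hx
  have hx3 : 3 ≤ x := hXM.trans hxM
  have hx0 : 0 < x := by linarith
  have hlog1 : 1 ≤ Real.log x := by
    rw [Real.le_log_iff_exp_le hx0]
    exact (Real.exp_one_lt_d9.le.trans (by norm_num)).trans hx3
  have hlog0 : 0 < Real.log x := by linarith
  set R : ℕ := lev x with hR
  have hRx : (R : ℝ) ≤ x ^ (1 / 81 : ℝ) := Nat.floor_le (Real.rpow_nonneg hx0.le _)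
  have hR2 : 2 ≤ R := by
    apply Nat.le_floor
    have h1 : ((2 : ℝ) ^ 81) ^ (1 / 81 : ℝ) = 2 := by
      rw [← Real.rpow_natCast, ← Real.rpow_mul (by norm_num)]
      norm_num
    calc ((2 : ℕ) : ℝ) = ((2 : ℝ) ^ 81) ^ (1 / 81 : ℝ) := by rw [h1]; norm_num
      _ ≤ x ^ (1 / 81 : ℝ) := Real.rpow_le_rpow (by positivity) hx2 (by norm_num)
  have hR58 : (R : ℝ) ≤ x ^ (5 / 8 : ℝ) :=
    hRx.trans (Real.rpow_le_rpow_of_exponent_le (by linarith) (by norm_num))
  have hR4 : (R : ℝ) ^ 4 ≤ x ^ (4 / 81 : ℝ) := by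
    calc (R : ℝ) ^ 4 ≤ (x ^ (1 / 81 : ℝ)) ^ 4 := pow_le_pow_left₀ (Nat.cast_nonneg _) hRx 4
      _ = x ^ (4 / 81 : ℝ) := by
          rw [← Real.rpow_natCast, ← Real.rpow_mul hx0.le]
          norm_num
  have hRlog : Real.log R ≤ Real.log x := by
    apply Real.log_le_log (by positivity)
    refine hRx.trans ?_
    calc x ^ (1 / 81 : ℝ) ≤ x ^ (1 : ℝ) :=
          Real.rpow_le_rpow_of_exponent_le (by linarith) (by norm_num)
      _ = x := Real.rpow_one x
  have hH : x ^ (1 / 2 : ℝ) + h m + 1 ≤ x ^ (5 / 8 : ℝ) := by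
    have h1 : x ^ (5 / 8 : ℝ) = x ^ (1 / 2 : ℝ) * x ^ (1 / 8 : ℝ) := by
      rw [← Real.rpow_add hx0]; norm_num
    have h2 : (h m : ℝ) + 2 ≤ x ^ (1 / 8 : ℝ) := by
      calc (h m : ℝ) + 2 = (((h m : ℝ) + 2) ^ 8) ^ (1 / 8 : ℝ) := by
            rw [← Real.rpow_natCast, ← Real.rpow_mul (by positivity)]
            norm_num
        _ ≤ x ^ (1 / 8 : ℝ) := Real.rpow_le_rpow (by positivity) hxh (by norm_num)
    have h3 : 1 ≤ x ^ (1 / 2 : ℝ) := Real.one_le_rpow (by linarith) (by norm_num)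
    have h4 : (0 : ℝ) ≤ h m := Nat.cast_nonneg _
    rw [h1]
    nlinarith
  have hβ := fun cm hcm => hBV x hxB cm hcm
  rw [← hR] at hβ
  intro y hy1 hyT
  set f := lam (wp R W) y with hf
  set δ : ℝ := C2 * Real.log x ^ 2 * x ^ (-(1 / 8) : ℝ) with hδ
  have hδ0 : 0 ≤ δ := by positivity
  obtain ⟨cm, hcm, hmax⟩ := exists_max_class (err g x) (err_mod g x)
  have hwp : ∀ p : PS R W, 0 ≤ wp R W p := by
    intro p
    unfold wp
    positivity
  have hL : ∀ c, |f c| ≤ (C1 * Real.log x) ^ Fintype.card κ := by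
    intro c
    refine (abs_lam_le hwp hy1 c).trans ?_
    refine (hprod (Fintype.card κ) W R hR2).trans ?_
    apply pow_le_pow_left₀
    · have : 0 ≤ Real.log R := Real.log_nonneg (by exact_mod_cast (by omega : 1 ≤ R))
      positivity
    · exact mul_le_mul_of_nonneg_left hRlog hC1.le
  have hsupp : ∀ c, f c ≠ 0 → ∏ p ∈ supp c, (p : ℕ) ≤ R := by
    intro c hc0
    obtain ⟨c', hle, hy0⟩ := exists_of_lam_ne_zero hc0
    exact (prod_le_prod_of_subset (supp_subset_of_le hle)).trans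
      (prod_le_of_T_le hR2 (hyT c' hy0))
  -- the expansion
  set tot : ℝ := ∑ n ∈ Icc 1 ⌊x⌋₊, Λ n * wt g x n with htot
  have hexp := hE (PS R W) κ (fun p => prm m (wp' R W p)) f (NS x W v) (nu g x (h m)) (sig h)
    (tot / (W.totient : ℝ))
    (fun U => if ∏ p ∈ supp U, (p : ℕ) ≤ R ^ 2 then
      err g x (W * ∏ p ∈ supp U, (p : ℕ)) (cm (W * ∏ p ∈ supp U, (p : ℕ))) + δ else 0)
    (fun p => sum_prm m _) (by
      intro c c' hc0 hc0' _
      have h1 : ∏ p ∈ supp (join c c'), (p : ℕ) ≤ R ^ 2 := by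
        rw [supp_join]
        refine (prod_union_le _ _).trans ?_
        rw [pow_two]
        exact Nat.mul_le_mul (hsupp c hc0) (hsupp c' hc0')
      rw [if_pos h1]
      exact one_colouring hS m hcop hg hg1 hg0 hx3 hH hR58 hδ0 (hnp x hx3) hmax (join c c'))
  have htotal := total_error hS hD0 hL hδ0 (R := R) (g := g) (x := x) (cm := cm)
    (β := 1 / Real.log x ^ ((2 * Fintype.card κ + 1 : ℕ) : ℝ)) (hβ cm hcm)
  have hsmall := hX1 x hx1
  have herr : ((C1 * Real.log x) ^ Fintype.card κ) ^ 2 *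
      (1 / Real.log x ^ ((2 * Fintype.card κ + 1 : ℕ) : ℝ) + (R : ℝ) ^ 4 * δ) ≤ 1 := by
    refine le_trans ?_ hsmall
    apply mul_le_mul_of_nonneg_left _ (by positivity)
    apply add_le_add le_rfl
    exact mul_le_mul_of_nonneg_right hR4 hδ0
  have h1 := (hexp.trans htotal).trans herr
  have h2 := (abs_le.1 h1).1
  set Q := Qf (fun p => prm m (wp' R W p)) f with hQ
  have hQ0 : 0 ≤ Q := Qf_nonneg (fun p a => prm_nonneg hS hD0 m p a) f
  have hmassx := (hmass x hxM).1
  set Sg : ℝ := ∑ n ∈ NS x W v, nu g x (h m) n *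
    (∑ c ∈ univ.filter (fun c : PS R W → Option κ => Le c (sig h n)), f c) ^ 2 with hSg
  have h3 : (1 / Real.log x) * Sg ≤
      ∑ n ∈ (NS x W v).filter (fun n => (n + h m).Prime), (1 / (n : ℝ)) * sw h f n := by
    have h4 : Sg = ∑ n ∈ (NS x W v).filter (fun n => (n + h m).Prime),
        nu g x (h m) n * sw h f n := by
      rw [Finset.sum_filter]
      apply Finset.sum_congr rfl
      intro n _
      rw [sw_eq hS f n]
      split_ifs with hp
      · rfl
      · unfold nu
        rw [if_neg hp, zero_mul]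
    rw [h4, Finset.mul_sum]
    apply Finset.sum_le_sum
    intro n hn
    have hn1 := (mem_NS.1 (Finset.mem_filter.1 hn).1).1.1
    have hn0 : (0 : ℝ) < n := by exact_mod_cast (by omega : 0 < n)
    rw [← mul_assoc]
    have hsw : 0 ≤ sw h f n := by rw [sw_eq hS f n]; positivity
    apply mul_le_mul_of_nonneg_right _ hsw
    by_cases hν : nu g x (h m) n = 0
    · rw [hν, mul_zero]
      positivity
    obtain ⟨hp, h5, h6⟩ := nu_range hg hg0 (by linarith) hν
    have h7 : nu g x (h m) n ≤ Real.log x * (1 / n) := by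
      unfold nu
      rw [if_pos hp, ArithmeticFunction.vonMangoldt_apply_prime hp]
      have hq0 : (0 : ℝ) < ((n + h m : ℕ) : ℝ) := by exact_mod_cast hp.pos
      apply mul_le_mul
      · exact Real.log_le_log hq0 h6.le
      · unfold wt
        apply div_le_div₀ zero_le_one (hg1 _) hn0
        exact_mod_cast Nat.le_add_right n (h m)
      · exact Pool.Agent.Helper18.BV.wt_nonneg hg _ _
      · exact hlog0.le
    calc 1 / Real.log x * nu g x (h m) n ≤ 1 / Real.log x * (Real.log x * (1 / n)) :=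
          mul_le_mul_of_nonneg_left h7 (by positivity)
      _ = 1 / n := by field_simp
  refine le_trans ?_ h3
  have h8 : tot / (W.totient : ℝ) * Q - 1 ≤ Sg := by linarith
  have hφ : (0 : ℝ) ≤ W.totient := Nat.cast_nonneg _
  have h9 : c / (W.totient : ℝ) * Q ≤ (1 / Real.log x) * (tot / (W.totient : ℝ) * Q) := by
    have h10 : (1 / Real.log x) * (tot / (W.totient : ℝ) * Q) =
        (tot / Real.log x) * (Q / (W.totient : ℝ)) := by ring
    have h11 : c / (W.totient : ℝ) * Q = c * (Q / (W.totient : ℝ)) := by ring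
    rw [h10, h11]
    apply mul_le_mul_of_nonneg_right _ (by positivity)
    rw [le_div_iff₀ hlog0]
    exact hmassx
  have h12 : (1 / Real.log x) * (tot / (W.totient : ℝ) * Q - 1) ≤ (1 / Real.log x) * Sg :=
    mul_le_mul_of_nonneg_left h8 (by positivity)
  have h13 : 1 / Real.log x ≤ 1 := by
    rw [div_le_one hlog0]
    exact hlog1
  have h14 : (1 / Real.log x) * (tot / (W.totient : ℝ) * Q - 1) =
      (1 / Real.log x) * (tot / (W.totient : ℝ) * Q) - 1 / Real.log x := by ring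
  linarith

end Pool.Agent.Helper47.PV
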